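import Pool.Agent.Helper40.MC.JDefs

/-!
# Growth of the number of models: lower bounds and spectra
-/

set_option autoImplicit false

namespace Pool.Agent.Helper58.MC

open FirstOrder Pool.Agent.Helper20.Spectra Pool.Agent.Helper58.QD Pool.Agent.Helper14.SS
open Pool.Agent.Helper31.QD (Au)
open Pool.Agent.Helper38.MC (AuG)
open Pool.Agent.Helper40.MC (FinAP APk)
open Pool.Agent.Helper40.MCM

variable {S : Type} {ar : S → ℕ}

/-- all large models have homogeneous families of blocks of at most `K` points -/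
def FamK (φ : SFm (RelLang S ar) 0 0) (K : ℕ) : Prop :=
  ∀ q : ℕ, ∃ n₀ : ℕ, ∀ n, n₀ ≤ n → ∀ R : Interp S ar (Fin n), SatM φ R →
    ∃ t, 1 ≤ t ∧ t ≤ K ∧ HFam R q t

/-- the lower bound -/
theorem lower_eps [Finite S] (φ : SFm (RelLang S ar) 0 0) {k : ℕ} (h : ¬ FamK φ k) {ε : ℝ}
    (hε : 0 < ε) (N : ℕ) :
    ∃ n : ℕ, N ≤ n ∧ (n : ℝ) ^ ((1 - 1 / ((k : ℝ) + 1) - ε) * n) ≤ countM φ n := by
  by_contra hcon
  push Not at hcon
  apply h
  intro q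
  obtain ⟨n₁, hn₁⟩ := Filter.eventually_atTop.1
    ((num_aux k (c := 1 - 1 / ((k : ℝ) + 1) - ε) (ε := ε / 2) (by linarith)).and
      (stmtHomA0 S ar k q (ε / 2) (by linarith)))
  refine ⟨max N n₁, fun n hn R hR => ?_⟩
  obtain ⟨hA, hB⟩ := hn₁ n (le_of_max_le_right hn)
  exact hB R (hA (countM φ n) _ (hcon n (le_of_max_le_left hn)).le (factorial_leM hR))

/-- the spectrum -/
theorem finAP_of_upper [Finite S] (φ : SFm (RelLang S ar) 0 0) {k : ℕ} (hk : 1 ≤ k) {C : ℕ}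
    (h : ∀ n, 1 ≤ n → countM φ n ^ k ≤ C ^ n * n ^ ((k - 1) * n)) : FinAP k (specM φ) := by
  have hk0 : (0 : ℝ) < k := by exact_mod_cast hk
  obtain ⟨δ, hδ⟩ : ∃ δ : ℝ, δ = 1 / (2 * k * (k + 1)) := ⟨_, rfl⟩
  have hδ0 : 0 < δ := by rw [hδ]; positivity
  obtain ⟨c, hc⟩ : ∃ c : ℝ, c = 1 - 1 / k + δ := ⟨_, rfl⟩
  have hδ1 : 1 / ((k : ℝ) + 1) < 1 / k - δ := by
    rw [hδ]
    have e : 1 / (k : ℝ) - 1 / (2 * k * (k + 1)) - 1 / (k + 1) = 1 / (2 * k * (k + 1)) := by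
      field_simp
      ring
    have : 0 < 1 / (2 * (k : ℝ) * (k + 1)) := by positivity
    linarith
  have hc1 : 0 < 1 - c := by
    have : 0 < 1 / ((k : ℝ) + 1) := by positivity
    linarith
  have hfl : ⌊1 / (1 - c)⌋₊ ≤ k := by
    have h1 : 1 / (1 - c) < (k : ℝ) + 1 := by
      rw [div_lt_iff₀ hc1]
      have h2 : 1 / ((k : ℝ) + 1) < 1 - c := by linarith
      rw [div_lt_iff₀ (by positivity)] at h2
      linarith [mul_comm ((k : ℝ) + 1) (1 - c)]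
    have h3 : ⌊1 / (1 - c)⌋₊ < k + 1 := by
      rw [Nat.floor_lt (by positivity)]
      exact_mod_cast h1
    omega
  have h1 : ∀ᶠ n : ℕ in Filter.atTop, (C : ℝ) ≤ (n : ℝ) ^ (δ * k) :=
    ((tendsto_rpow_atTop (by positivity)).comp tendsto_natCast_atTop_atTop).eventually_ge_atTop _
  obtain ⟨n₁, hn₁⟩ := stmtTameM0 S ar φ c (by linarith)
  obtain ⟨n₂, hn₂⟩ := Filter.eventually_atTop.1 (h1.and (Filter.eventually_ge_atTop 1))
  refine (Pool.Agent.Helper12.MC.stmtAP _ _).1 ⟨max n₁ n₂, fun n hn hnn => ?_⟩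
  obtain ⟨h2, h3⟩ := hn₂ n (le_of_max_le_right hnn)
  have hn0 : (0 : ℝ) < n := by exact_mod_cast h3
  have h4 : (countM φ n : ℝ) ≤ (n : ℝ) ^ (c * n) := by
    have h5 : (countM φ n : ℝ) ^ k ≤ (C : ℝ) ^ n * (n : ℝ) ^ ((k - 1) * n) := by
      exact_mod_cast h n h3
    have h6 : (C : ℝ) ^ n ≤ ((n : ℝ) ^ (δ * k)) ^ n := pow_le_pow_left₀ (Nat.cast_nonneg _) h2 n
    have h7 : ((n : ℝ) ^ (δ * k)) ^ n * (n : ℝ) ^ ((k - 1) * n) = ((n : ℝ) ^ (c * n)) ^ k := by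
      rw [← Real.rpow_natCast ((n : ℝ) ^ (δ * k)) n, ← Real.rpow_mul hn0.le,
        ← Real.rpow_natCast (n : ℝ) ((k - 1) * n), ← Real.rpow_add hn0,
        ← Real.rpow_natCast ((n : ℝ) ^ (c * n)) k, ← Real.rpow_mul hn0.le]
      congr 1
      rw [Nat.cast_mul, Nat.cast_sub hk, hc]
      push_cast
      field_simp
      ring
    have h8 : (countM φ n : ℝ) ^ k ≤ ((n : ℝ) ^ (c * n)) ^ k := by
      rw [← h7]
      exact h5.trans (mul_le_mul_of_nonneg_right h6 (by positivity))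
    exact le_of_pow_le_pow_left₀ (by omega) (by positivity) h8
  obtain ⟨t, ht1, ht2, ht3⟩ := hn₁ n hn (le_of_max_le_left hnn) h4
  exact ⟨t, ht1, ht2.trans hfl, ht3⟩

end Pool.Agent.Helper58.MC
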