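import Pool.Agent.Helper38.MC.ADefs
import Pool.Agent.Helper31.QD.Elim

/-!
# Few structures are homogeneous outside of boundedly many points
-/

set_option autoImplicit false

namespace Pool.Agent.Helper58.MC

open FirstOrder Pool.Agent.Helper20.Spectra Pool.Agent.Helper58.QD
open Pool.Agent.Helper31.QD (Au exists_perm eqt)
open Pool.Agent.Helper38.MC (AuG)

variable {S : Type} {ar : S → ℕ}

/-- `R` consists of at most `C` points and at most `C` homogeneous families of blocks of at most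
`k` points -/
def HDec {n : ℕ} (R : Interp S ar (Fin n)) (C k : ℕ) : Prop :=
  ∃ (ι : Type) (_ : Fintype ι) (q t : ι → ℕ) (u : ∀ f, Fin (q f) × Fin (t f) → Fin n)
    (V : Finset (Fin n)), Fintype.card ι ≤ C ∧ V.card ≤ C ∧ (∀ f, t f ≤ k) ∧
    (∀ f, Function.Injective (u f)) ∧ (∀ f g a b, u f a = u g b → f = g) ∧
    (∀ x, x ∈ V ∨ ∃ f a, u f a = x) ∧
    ∀ f (π : Equiv.Perm (Fin (q f))) (σ : Equiv.Perm (Fin n)),
      (∀ i x, σ (u f (i, x)) = u f (π i, x)) → (∀ z, (∀ p, u f p ≠ z) → σ z = z) → Au R σ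

/-- types of points -/
abbrev Ty (C k : ℕ) : Type := Fin (C + 1) ⊕ Fin C × Fin k

/-- labels of a structure: types and pointers -/
def Lab {n : ℕ} (R : Interp S ar (Fin n)) (C k : ℕ) (τ : Fin n → Ty C k) (p : Fin n → Fin n) :
    Prop :=
  k * (Finset.univ.filter (fun x => p x ≠ x)).card ≤ (k - 1) * n ∧
  ∀ s (w w' : Fin (ar s) → Fin n), (∀ i, τ (w i) = τ (w' i)) →
    (∀ i j, p (w i) = p (w j) ↔ p (w' i) = p (w' j)) → (R s w ↔ R s w')

/-- pointer maps with at most `L` moved points -/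
lemma card_ptr (n L : ℕ) (hn : 1 ≤ n) :
    Nat.card {p : Fin n → Fin n // (Finset.univ.filter (fun x => p x ≠ x)).card ≤ L} ≤
      2 ^ n * n ^ L := by
  classical
  have hs : ∀ A : Finset (Fin n), ∃ g : Fin L → Fin n, A.card ≤ L → ∀ x ∈ A, ∃ i, g i = x := by
    intro A
    by_cases hA : A.card ≤ L
    · refine ⟨fun i => if h : (i : ℕ) < A.card then (A.equivFin.symm ⟨i, h⟩ : Fin n) else ⟨0, hn⟩,
        fun _ x hx => ?_⟩
      refine ⟨⟨A.equivFin ⟨x, hx⟩, (A.equivFin ⟨x, hx⟩).2.trans_le hA⟩, ?_⟩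
      have h1 : ((A.equivFin ⟨x, hx⟩ : Fin A.card) : ℕ) < A.card := Fin.is_lt _
      show (if h : ((A.equivFin ⟨x, hx⟩ : Fin A.card) : ℕ) < A.card then
        (A.equivFin.symm ⟨_, h⟩ : Fin n) else ⟨0, hn⟩) = x
      rw [dif_pos h1]
      simp
    · exact ⟨fun _ => ⟨0, hn⟩, fun h => absurd h hA⟩
  choose g hg using hs
  let f : {p : Fin n → Fin n // (Finset.univ.filter (fun x => p x ≠ x)).card ≤ L} →
      Finset (Fin n) × (Fin L → Fin n) := fun p => (Finset.univ.filter (fun x => p.1 x ≠ x),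
        fun i => p.1 (g (Finset.univ.filter (fun x => p.1 x ≠ x)) i))
  have hf : Function.Injective f := by
    rintro ⟨p, hp⟩ ⟨p', hp'⟩ h
    have h1 : Finset.univ.filter (fun x => p x ≠ x) = Finset.univ.filter (fun x => p' x ≠ x) :=
      congrArg Prod.fst h
    have h2 : (fun i => p (g (Finset.univ.filter (fun x => p x ≠ x)) i)) =
      fun i => p' (g (Finset.univ.filter (fun x => p' x ≠ x)) i) := congrArg Prod.snd h
    apply Subtype.ext
    funext x
    show p x = p' x
    by_cases hx : p x ≠ x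
    · obtain ⟨i, hi⟩ := hg (Finset.univ.filter (fun x => p x ≠ x)) hp x (by simpa using hx)
      have h3 : p (g (Finset.univ.filter (fun x => p x ≠ x)) i) =
        p' (g (Finset.univ.filter (fun x => p' x ≠ x)) i) := congrFun h2 i
      rw [← h1, hi] at h3
      exact h3
    · have hx' : ¬ p' x ≠ x := by
        intro h4
        have h5 : x ∈ Finset.univ.filter (fun x => p' x ≠ x) := by simpa using h4
        rw [← h1] at h5
        exact hx (by simpa using h5)
      rw [not_not] at hx hx'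
      rw [hx, hx']
  have h4 := Nat.card_le_card_of_injective f hf
  rw [Nat.card_prod] at h4
  have e1 : Nat.card (Finset (Fin n)) = 2 ^ n := by
    rw [Nat.card_eq_fintype_card, Fintype.card_finset, Fintype.card_fin]
  have e2 : Nat.card (Fin L → Fin n) = n ^ L := by
    rw [Nat.card_eq_fintype_card, Fintype.card_fun, Fintype.card_fin, Fintype.card_fin]
  rwa [e1, e2] at h4

/-- few structures have labels -/
theorem count_lab [Finite S] (P : ∀ n, Interp S ar (Fin n) → Prop) (C k : ℕ) (hk : 1 ≤ k)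
    (h : ∀ n R, P n R → ∃ τ p, Lab R C k τ p) :
    ∃ D, ∀ n, 1 ≤ n → Nat.card {R // P n R} ^ k ≤ D ^ n * n ^ ((k - 1) * n) := by
  classical
  let Θ : Type := ∀ s : S, ((Fin (ar s) → Ty C k) × (Fin (ar s) → Fin (ar s) → Prop)) → Prop
  have hΘ : Finite Θ := Pi.finite
  have hΘ' : Nonempty Θ := ⟨fun _ _ => True⟩
  obtain ⟨D0, hD0⟩ : ∃ D0, D0 = Nat.card Θ := ⟨_, rfl⟩
  have hD1 : 1 ≤ D0 := by
    rw [hD0]
    exact Nat.card_pos
  obtain ⟨T, hT⟩ : ∃ T, T = Nat.card (Ty C k) := ⟨_, rfl⟩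
  refine ⟨T ^ k * 2 ^ k * D0 ^ k, fun n hn => ?_⟩
  obtain ⟨L, hL⟩ : ∃ L, L = (k - 1) * n / k := ⟨_, rfl⟩
  have key : Nat.card {R // P n R} ≤ T ^ n * ((2 ^ n * n ^ L) * D0) := by
    have i1 : Nonempty (Fin n → Fin n) := ⟨id⟩
    have i2 : Nonempty (Fin n → Ty C k) := ⟨fun _ => Sum.inl 0⟩
    obtain ⟨τ, p, hτp⟩ : ∃ (τ : Interp S ar (Fin n) → Fin n → Ty C k)
        (p : Interp S ar (Fin n) → Fin n → Fin n), ∀ R, P n R → Lab R C k (τ R) (p R) := by
      choose! τ p hτp using h n
      exact ⟨τ, p, hτp⟩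
    let f : {R // P n R} → (Fin n → Ty C k) ×
        ({p : Fin n → Fin n // (Finset.univ.filter (fun x => p x ≠ x)).card ≤ L} × Θ) :=
      fun R => (τ R.1, (⟨p R.1, by
          rw [hL, Nat.le_div_iff_mul_le (by omega), mul_comm]
          exact (hτp R.1 R.2).1⟩,
        fun s a => ∃ w : Fin (ar s) → Fin n, (∀ i, τ R.1 (w i) = a.1 i) ∧
          (∀ i j, (p R.1 (w i) = p R.1 (w j)) = a.2 i j) ∧ R.1 s w))
    have hf : Function.Injective f := by
      rintro ⟨R, hR⟩ ⟨R', hR'⟩ he
      have h1 : τ R = τ R' := congrArg Prod.fst he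
      have h2 : p R = p R' := congrArg Subtype.val (congrArg Prod.fst (congrArg Prod.snd he))
      have h3 : ∀ (s : S) (a : (Fin (ar s) → Ty C k) × (Fin (ar s) → Fin (ar s) → Prop)),
          (∃ w : Fin (ar s) → Fin n, (∀ i, τ R (w i) = a.1 i) ∧
          (∀ i j, (p R (w i) = p R (w j)) = a.2 i j) ∧ R s w) =
          (∃ w : Fin (ar s) → Fin n, (∀ i, τ R' (w i) = a.1 i) ∧
          (∀ i j, (p R' (w i) = p R' (w j)) = a.2 i j) ∧ R' s w) := fun s a =>
        congrFun (congrFun (congrArg Prod.snd (congrArg Prod.snd he)) s) a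
      apply Subtype.ext
      funext s w
      show R s w = R' s w
      have key : ∀ Q : Interp S ar (Fin n), P n Q → (R s w ∨ R' s w ∨ True) →
          (Q s w ↔ ∃ w', (∀ i, τ Q (w' i) = τ Q (w i)) ∧
          (∀ i j, (p Q (w' i) = p Q (w' j)) = (p Q (w i) = p Q (w j))) ∧ Q s w') := by
        intro Q hQ _
        constructor
        · intro hw
          exact ⟨w, fun _ => rfl, fun _ _ => rfl, hw⟩
        · rintro ⟨w', h4, h5, h6⟩
          exact ((hτp Q hQ).2 s w' w h4 (fun i j => iff_of_eq (h5 i j))).1 h6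
      apply propext
      rw [key R hR (by tauto), key R' hR' (by tauto)]
      have h7 := h3 s (fun i => τ R (w i), fun i j => p R (w i) = p R (w j))
      have h8 := iff_of_eq h7
      rw [h1, h2] at h8 ⊢
      exact h8
    have h4 := Nat.card_le_card_of_injective f hf
    rw [Nat.card_prod, Nat.card_prod] at h4
    have e1 : Nat.card (Fin n → Ty C k) = T ^ n := by
      rw [hT, Nat.card_eq_fintype_card, Nat.card_eq_fintype_card, Fintype.card_fun,
        Fintype.card_fin]
    rw [e1, ← hD0] at h4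
    exact h4.trans (Nat.mul_le_mul_left _ (Nat.mul_le_mul_right _ (card_ptr n L hn)))
  have hLk : L * k ≤ (k - 1) * n := by
    rw [hL]
    exact Nat.div_mul_le_self _ _
  calc Nat.card {R // P n R} ^ k ≤ (T ^ n * ((2 ^ n * n ^ L) * D0)) ^ k :=
        Nat.pow_le_pow_left key k
    _ = (T ^ k * 2 ^ k) ^ n * (D0 ^ k * n ^ (L * k)) := by
        rw [mul_pow, mul_pow, mul_pow, mul_pow, ← pow_mul, ← pow_mul, ← pow_mul, ← pow_mul,
          ← pow_mul, mul_comm n k]
        ring
    _ ≤ (T ^ k * 2 ^ k) ^ n * ((D0 ^ k) ^ n * n ^ ((k - 1) * n)) := by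
        refine Nat.mul_le_mul_left _ (Nat.mul_le_mul ?_ (Nat.pow_le_pow_right hn hLk))
        exact Nat.le_self_pow (by omega) _
    _ = (T ^ k * 2 ^ k * D0 ^ k) ^ n * n ^ ((k - 1) * n) := by
        rw [mul_pow (T ^ k * 2 ^ k)]
        ring

/-- homogeneous families give labels -/
theorem lab_of_dec {n : ℕ} {R : Interp S ar (Fin n)} {C k : ℕ} (hk : 1 ≤ k) (h : HDec R C k) :
    ∃ τ p, Lab R C k τ p := by
  classical
  obtain ⟨ι, _, q, t, u, V, hC, hV, ht, hu, huu, hcov, hau⟩ := h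
  let U : (Σ f, Fin (q f) × Fin (t f)) → Fin n := fun a => u a.1 a.2
  have hU : Function.Injective U := by
    rintro ⟨f, a⟩ ⟨g, b⟩ h
    obtain rfl := huu f g a b h
    have h1 : a = b := hu f h
    rw [h1]
  obtain ⟨e⟩ : Nonempty (ι ↪ Fin C) :=
    Function.Embedding.nonempty_of_card_le (by rwa [Fintype.card_fin])
  obtain ⟨idx, hidx⟩ : ∃ idx : Fin n → Fin (C + 1), ∀ x ∈ V, ∀ y ∈ V, idx x = idx y → x = y := by
    refine ⟨fun x => if h : x ∈ V then ⟨V.equivFin ⟨x, h⟩, by
      have := (V.equivFin ⟨x, h⟩).is_lt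
      omega⟩ else 0, fun x hx y hy hxy => ?_⟩
    simp only [hx, hy, dite_true] at hxy
    have h0 : (V.equivFin ⟨x, hx⟩ : ℕ) = (V.equivFin ⟨y, hy⟩ : ℕ) := by
      have h2 := congrArg Fin.val hxy
      exact h2
    have h1 : V.equivFin ⟨x, hx⟩ = V.equivFin ⟨y, hy⟩ := Fin.ext h0
    exact congrArg Subtype.val (V.equivFin.injective h1)
  obtain ⟨inv, hinv⟩ : ∃ inv : Fin n → Option (Σ f, Fin (q f) × Fin (t f)),
      inv = fun x => if h : ∃ a, U a = x then some (Classical.choose h) else none := ⟨_, rfl⟩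
  have inv_U : ∀ a, inv (U a) = some a := by
    intro a
    have h : ∃ b, U b = U a := ⟨a, rfl⟩
    rw [hinv]
    show (if h : ∃ b, U b = U a then some (Classical.choose h) else none) = some a
    rw [dif_pos h]
    exact congrArg some (hU (Classical.choose_spec h))
  have inv_some : ∀ x a, inv x = some a → U a = x := by
    intro x a hx
    rw [hinv] at hx
    by_cases h : ∃ b, U b = x
    · obtain ⟨b, rfl⟩ := h
      have h1 := inv_U b
      rw [hinv] at h1
      rw [h1] at hx
      rw [Option.some.inj hx]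
    · have h2 : (if h : ∃ b, U b = x then some (Classical.choose h) else none) = some a := hx
      rw [dif_neg h] at h2
      exact absurd h2 (by simp)
  have inv_none : ∀ x, inv x = none → x ∈ V := by
    intro x hx
    rcases hcov x with h | ⟨f, a, rfl⟩
    · exact h
    · have h1 := inv_U ⟨f, a⟩
      rw [show U ⟨f, a⟩ = u f a from rfl, hx] at h1
      exact absurd h1 (by simp)
  obtain ⟨τ, hτ⟩ : ∃ τ : Fin n → Ty C k, τ = fun x => match inv x with
    | some a => Sum.inr (e a.1, Fin.castLE (ht a.1) a.2.2)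
    | none => Sum.inl (idx x) := ⟨_, rfl⟩
  obtain ⟨p, hp⟩ : ∃ p : Fin n → Fin n, p = fun x => match inv x with
    | some a => U ⟨a.1, (a.2.1, ⟨0, Fin.pos a.2.2⟩)⟩
    | none => x := ⟨_, rfl⟩
  have τU : ∀ x a, inv x = some a → τ x = Sum.inr (e a.1, Fin.castLE (ht a.1) a.2.2) := by
    intro x a h
    rw [hτ]
    show (match inv x with
      | some a => Sum.inr (e a.1, Fin.castLE (ht a.1) a.2.2)
      | none => Sum.inl (idx x) : Ty C k) = _
    rw [h]
  have τn : ∀ x, inv x = none → τ x = Sum.inl (idx x) := by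
    intro x h
    rw [hτ]
    show (match inv x with
      | some a => Sum.inr (e a.1, Fin.castLE (ht a.1) a.2.2)
      | none => Sum.inl (idx x) : Ty C k) = _
    rw [h]
  have pU : ∀ x a, inv x = some a → p x = U ⟨a.1, (a.2.1, ⟨0, Fin.pos a.2.2⟩)⟩ := by
    intro x a h
    rw [hp]
    show (match inv x with
      | some a => U ⟨a.1, (a.2.1, ⟨0, Fin.pos a.2.2⟩)⟩
      | none => x) = _
    rw [h]
  have pn : ∀ x, inv x = none → p x = x := by
    intro x h
    rw [hp]
    show (match inv x with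
      | some a => U ⟨a.1, (a.2.1, ⟨0, Fin.pos a.2.2⟩)⟩
      | none => x) = _
    rw [h]
  have mv : ∀ x, p x ≠ x → ∃ a, inv x = some a ∧ (a.2.2 : ℕ) ≠ 0 := by
    intro x hx
    rcases hi : inv x with _ | ⟨f, b, y⟩
    · exact absurd (pn x hi) hx
    · refine ⟨_, rfl, fun h0 => hx ?_⟩
      rw [pU x _ hi, ← inv_some x _ hi]
      have : y = ⟨0, Fin.pos y⟩ := Fin.ext h0
      rw [← this]
  refine ⟨τ, p, ?_, ?_⟩
  · obtain ⟨Mv, hMv⟩ : ∃ Mv, Mv = Finset.univ.filter (fun x => p x ≠ x) := ⟨_, rfl⟩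
    have hm : ∀ x, x ∈ Mv ↔ p x ≠ x := fun x => by rw [hMv]; simp
    rw [← hMv]
    have h1 : Mv.card ≤ (k - 1) * (Mv.image p).card := by
      refine Finset.card_le_mul_card_image Mv (k - 1) (fun y _ => ?_)
      have h2 : (Finset.Ico 1 k).card = k - 1 := by simp
      rw [← h2]
      refine Finset.card_le_card_of_injOn
        (fun x => match inv x with
          | some a => (a.2.2 : ℕ)
          | none => 0) ?_ ?_
      · intro x hx
        obtain ⟨hx1, hx2⟩ := Finset.mem_filter.1 hx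
        obtain ⟨a, ha, ha0⟩ := mv x ((hm x).1 hx1)
        show (match inv x with
          | some a => (a.2.2 : ℕ)
          | none => 0) ∈ (Finset.Ico 1 k : Set ℕ)
        rw [ha]
        have h3 := a.2.2.is_lt
        have h4 := ht a.1
        show (a.2.2 : ℕ) ∈ (Finset.Ico 1 k : Set ℕ)
        rw [Finset.coe_Ico, Set.mem_Ico]
        omega
      · intro x hx x' hx' he
        obtain ⟨hx1, hx2⟩ := Finset.mem_filter.1 hx
        obtain ⟨hx3, hx4⟩ := Finset.mem_filter.1 hx'
        obtain ⟨⟨f, b, i⟩, ha, ha0⟩ := mv x ((hm x).1 hx1)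
        obtain ⟨⟨f', b', i'⟩, ha', ha0'⟩ := mv x' ((hm x').1 hx3)
        have he' : (match inv x with
          | some a => (a.2.2 : ℕ)
          | none => 0) = (match inv x' with
          | some a => (a.2.2 : ℕ)
          | none => 0) := he
        rw [ha, ha'] at he'
        have he2 : (i : ℕ) = (i' : ℕ) := he'
        have h5 : U ⟨f, (b, ⟨0, Fin.pos i⟩)⟩ = U ⟨f', (b', ⟨0, Fin.pos i'⟩)⟩ := by
          have h6 := pU x _ ha
          have h7 := pU x' _ ha'
          rw [hx2] at h6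
          rw [hx4] at h7
          exact h6.symm.trans h7
        have h8 := hU h5
        obtain ⟨rfl, h9⟩ := Sigma.mk.inj h8
        have h10 := congrArg Prod.fst (eq_of_heq h9)
        have h10' : b = b' := h10
        have h11 : i = i' := Fin.ext he2
        rw [← inv_some x _ ha, ← inv_some x' _ ha', h10', h11]
    have h2 : Disjoint Mv (Mv.image p) := by
      rw [Finset.disjoint_left]
      intro y hy hy'
      obtain ⟨x, hx, rfl⟩ := Finset.mem_image.1 hy'
      obtain ⟨⟨f, b, i⟩, ha, ha0⟩ := mv x ((hm x).1 hx)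
      have h3 := pU x _ ha
      have h4 : inv (p x) = some ⟨f, (b, ⟨0, Fin.pos i⟩)⟩ := by
        rw [h3]
        exact inv_U _
      exact (hm _).1 hy ((pU (p x) _ h4).trans h3.symm)
    have h3 : Mv.card + (Mv.image p).card ≤ n := by
      rw [← Finset.card_union_of_disjoint h2]
      exact (Finset.card_le_univ _).trans (by rw [Fintype.card_fin])
    obtain ⟨k', rfl⟩ : ∃ k', k = k' + 1 := ⟨k - 1, by omega⟩
    rw [Nat.add_sub_cancel] at h1 ⊢
    nlinarith [Nat.mul_le_mul_left k' h3]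
  · intro s w w' hw hpw
    -- corresponding points
    have hcor : ∀ i, (inv (w i) = none ∧ w i = w' i) ∨ ∃ f b b' x,
        w i = U ⟨f, (b, x)⟩ ∧ w' i = U ⟨f, (b', x)⟩ := by
      intro i
      have h1 := hw i
      rcases hi : inv (w i) with _ | ⟨f, b, x⟩ <;> rcases hi' : inv (w' i) with _ | ⟨f', b', x'⟩
      · left
        rw [τn _ hi, τn _ hi'] at h1
        exact ⟨rfl, hidx _ (inv_none _ hi) _ (inv_none _ hi') (Sum.inl.inj h1)⟩
      · rw [τn _ hi, τU _ _ hi'] at h1
        exact absurd h1 (by simp)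
      · rw [τU _ _ hi, τn _ hi'] at h1
        exact absurd h1 (by simp)
      · right
        rw [τU _ _ hi, τU _ _ hi'] at h1
        have h2 := Sum.inr.inj h1
        have h3 : f = f' := e.injective (congrArg Prod.fst h2)
        subst h3
        have h4 : Fin.castLE (ht f) x = Fin.castLE (ht f) x' := congrArg Prod.snd h2
        have h5 : x = x' := Fin.castLE_injective _ h4
        subst h5
        exact ⟨f, b, b', x, (inv_some _ _ hi).symm, (inv_some _ _ hi').symm⟩
    have hπ : ∀ f, ∃ π : Equiv.Perm (Fin (q f)), ∀ i b b' x, w i = U ⟨f, (b, x)⟩ →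
        w' i = U ⟨f, (b', x)⟩ → π b = b' := by
      intro f
      let J : Type := {z : Fin (ar s) × ((Fin (q f) × Fin (q f)) × Fin (t f)) //
        w z.1 = U ⟨f, (z.2.1.1, z.2.2)⟩ ∧ w' z.1 = U ⟨f, (z.2.1.2, z.2.2)⟩}
      obtain ⟨π, hπ⟩ := exists_perm (ι := J) (fun z => z.1.2.1.2) (fun z => z.1.2.1.1) (by
        funext z z'
        apply propext
        show z.1.2.1.1 = z'.1.2.1.1 ↔ z.1.2.1.2 = z'.1.2.1.2
        obtain ⟨⟨i, ⟨b, b'⟩, x⟩, h1, h2⟩ := z
        obtain ⟨⟨j, ⟨c, c'⟩, y⟩, h3, h4⟩ := z'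
        show b = c ↔ b' = c'
        have h5 := hpw i j
        have g1 : p (w i) = U ⟨f, (b, ⟨0, Fin.pos x⟩)⟩ := by
          rw [h1]
          exact pU _ _ (inv_U _)
        have g2 : p (w' i) = U ⟨f, (b', ⟨0, Fin.pos x⟩)⟩ := by
          rw [h2]
          exact pU _ _ (inv_U _)
        have g3 : p (w j) = U ⟨f, (c, ⟨0, Fin.pos x⟩)⟩ := by
          rw [h3]
          exact pU _ _ (inv_U _)
        have g4 : p (w' j) = U ⟨f, (c', ⟨0, Fin.pos x⟩)⟩ := by
          rw [h4]
          exact pU _ _ (inv_U _)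
        rw [g1, g2, g3, g4] at h5
        constructor
        · intro h6
          have h7 := hU (h5.1 (by rw [h6]))
          exact congrArg Prod.fst (eq_of_heq (Sigma.mk.inj h7).2)
        · intro h6
          have h7 := hU (h5.2 (by rw [h6]))
          exact congrArg Prod.fst (eq_of_heq (Sigma.mk.inj h7).2))
      exact ⟨π, fun i b b' x h1 h2 => hπ ⟨(i, ((b, b'), x)), h1, h2⟩⟩
    choose π hπ using hπ
    let Ψ : (∀ f, Equiv.Perm (Fin (q f))) →* Equiv.Perm (Σ f, Fin (q f) × Fin (t f)) :=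
      { toFun := fun π => Equiv.sigmaCongrRight (fun f => (π f).prodCongr (Equiv.refl _))
        map_one' := Equiv.ext fun ⟨f, b, x⟩ => rfl
        map_mul' := fun π π' => Equiv.ext fun ⟨f, b, x⟩ => rfl }
    let Φ := (Equiv.Perm.viaEmbeddingHom ⟨U, hU⟩).comp Ψ
    have hΦ1 : ∀ π f b x, Φ π (U ⟨f, (b, x)⟩) = U ⟨f, (π f b, x)⟩ := fun π f b x =>
      Equiv.Perm.viaEmbedding_apply (Ψ π) ⟨U, hU⟩ ⟨f, (b, x)⟩
    have hΦ2 : ∀ π z, (∀ a, U a ≠ z) → Φ π z = z := fun π z hz =>
      Equiv.Perm.viaEmbedding_apply_of_notMem (Ψ π) ⟨U, hU⟩ z (by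
        rintro ⟨a, ha⟩
        exact hz a ha)
    have hAu : ∀ π, Au R (Φ π) := by
      intro π
      have h1 : π ∈ (AuG R).comap Φ := by
        apply Subgroup.pi_mem_of_mulSingle_mem
        intro f
        show Au R (Φ (Pi.mulSingle f (π f)))
        refine hau f (π f) _ (fun b x => ?_) (fun z hz => ?_)
        · have h2 := hΦ1 (Pi.mulSingle f (π f)) f b x
          rw [Pi.mulSingle_eq_same] at h2
          exact h2
        · by_cases h : ∃ a, U a = z
          · obtain ⟨⟨g, b, x⟩, rfl⟩ := h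
            have hg : g ≠ f := by
              rintro rfl
              exact hz (b, x) rfl
            have h2 := hΦ1 (Pi.mulSingle f (π f)) g b x
            rw [Pi.mulSingle_eq_of_ne hg] at h2
            exact h2
          · push Not at h
            exact hΦ2 _ z h
      exact h1
    have hσ : w' = Φ π ∘ w := by
      funext i
      show w' i = Φ π (w i)
      rcases hcor i with ⟨h1, h2⟩ | ⟨f, b, b', x, h1, h2⟩
      · rw [← h2]
        symm
        apply hΦ2
        intro a ha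
        rw [← ha, inv_U] at h1
        exact absurd h1 (by simp)
      · rw [h1, hΦ1, h2, hπ f i b b' x h1 h2]
    rw [hσ]
    exact (hAu π s w).symm

/-- upper bound for the number of structures with few families -/
theorem upper [Finite S] (P : ∀ n, Interp S ar (Fin n) → Prop) (C k : ℕ) (hk : 1 ≤ k)
    (h : ∀ n R, P n R → HDec R C k) :
    ∃ D, ∀ n, 1 ≤ n → Nat.card {R // P n R} ^ k ≤ D ^ n * n ^ ((k - 1) * n) :=
  count_lab P C k hk (fun n R hR => lab_of_dec hk (h n R hR))

end Pool.Agent.Helper58.MC
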